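import Pool.Agent.Helper70.DK.Defs

/-!
# LOW: entropy of the mixture on the scales `[q, q + lam]`, lower bound
-/

set_option autoImplicit false

namespace Pool.Agent.Helper70.DK

open Finset

/-- integer boxes -/
lemma low_box (k : ℕ) (a : Fin k → ℤ) (K : ℕ) :
    (Fintype.piFinset (fun i : Fin k => Finset.Icc (a i) (a i + K))).card = (K + 1) ^ k := by
  rw [Fintype.card_piFinset]
  have : ∀ i : Fin k, (Finset.Icc (a i) (a i + K)).card = K + 1 := by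
    intro i
    rw [Int.card_Icc]
    omega
  rw [Finset.prod_congr rfl fun i _ => this i, Finset.prod_const, Finset.card_univ,
    Fintype.card_fin]

/-- real bounds for the cell of an integer -/
lemma low_cell {X : ℤ} {b : ℕ} (hb : 0 < b) :
    ((X / (b : ℤ) : ℤ) : ℝ) ≤ (X : ℝ) / b ∧ (X : ℝ) / b < ((X / (b : ℤ) : ℤ) : ℝ) + 1 := by
  have hb' : (0 : ℤ) < b := by exact_mod_cast hb
  have hbr : (0 : ℝ) < b := by exact_mod_cast hb
  have h1 : X / (b : ℤ) * b ≤ X := Int.ediv_mul_le X hb'.ne'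
  have h2 : X < (X / (b : ℤ) + 1) * b := Int.lt_ediv_add_one_mul_self X hb'
  constructor
  · rw [le_div_iff₀ hbr]
    exact_mod_cast h1
  · rw [div_lt_iff₀ hbr]
    exact_mod_cast h2

lemma low_log_nonneg (n : ℕ) : 0 ≤ Real.log (n : ℝ) := Real.log_natCast_nonneg n

lemma low_fib {Ω β : Type} {S : Finset Ω} {g : Ω → β} {c : β} {x : Ω} :
    x ∈ fib S g c ↔ x ∈ S ∧ g x = c := by
  unfold fib
  simp only [Finset.mem_filter]

/-- (c2) fixed `J`: many values along `A` -/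
lemma low_line (h2 : ST_E2) (k : ℕ) (B : ℕ) (hB : 2 ≤ B) (d lam : ℕ) (y g : Fin (k + 1) → ℝ)
    (i0 : Fin (k + 1)) (hy : 1 ≤ (B : ℝ) ^ d * |y i0|) :
    (lam : ℝ) * Real.log B - Real.log 2 ≤
      ent (Finset.range (B ^ (d + lam))) (fun A => fun i => ⌊(A : ℝ) * y i + g i⌋) := by
  have hB0 : 0 < B := by omega
  have hBr : (0 : ℝ) < B := by exact_mod_cast hB0
  have hne : (Finset.range (B ^ (d + lam))).Nonempty := by
    rw [Finset.nonempty_range_iff]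
    positivity
  have hK := h2.2.1 ℕ (Fin (k + 1) → ℤ) (Finset.range (B ^ (d + lam)))
    (fun A => fun i => ⌊(A : ℝ) * y i + g i⌋) (2 * B ^ d) hne ?_
  · refine le_trans ?_ hK
    rw [Finset.card_range]
    push_cast
    rw [Real.log_mul (by norm_num) (by positivity), Real.log_pow, Real.log_pow]
    push_cast
    linarith
  · intro x _
    have hsub : fib (Finset.range (B ^ (d + lam)))
        (fun A : ℕ => fun i => ⌊(A : ℝ) * y i + g i⌋) ((fun A : ℕ => fun i => ⌊(A : ℝ) * y i + g i⌋) x) ⊆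
        Finset.Ico (x + 1 - B ^ d) (x + B ^ d) := by
      intro a ha
      have h1 := congrFun (low_fib.1 ha).2 i0
      have e1 := Int.floor_le ((a : ℝ) * y i0 + g i0)
      have e2 := Int.lt_floor_add_one ((a : ℝ) * y i0 + g i0)
      have e3 := Int.floor_le ((x : ℝ) * y i0 + g i0)
      have e4 := Int.lt_floor_add_one ((x : ℝ) * y i0 + g i0)
      rw [h1] at e1 e2
      have e5 : |((a : ℝ) - x) * y i0| < 1 := by
        rw [abs_lt]
        constructor <;> nlinarith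
      have e6 : |(a : ℝ) - x| < (B : ℝ) ^ d := by
        rw [abs_mul] at e5
        by_contra hcon
        push Not at hcon
        have : (1 : ℝ) ≤ |(a : ℝ) - x| * |y i0| :=
          hy.trans (mul_le_mul_of_nonneg_right hcon (abs_nonneg _))
        linarith
      rw [abs_lt] at e6
      have e7 : (x : ℝ) < a + (B : ℝ) ^ d := by linarith [e6.1]
      have e8 : (a : ℝ) < x + (B : ℝ) ^ d := by linarith [e6.2]
      have e9 : x < a + B ^ d := by exact_mod_cast e7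
      have e10 : a < x + B ^ d := by exact_mod_cast e8
      rw [Finset.mem_Ico]
      constructor <;> omega
    refine (Finset.card_le_card hsub).trans ?_
    rw [Nat.card_Ico]
    have : 0 < B ^ d := by positivity
    omega

/-- the coordinates of the sum of `Q` independent copies -/
lemma low_dev {X F c T' : ℤ} {x y : ℝ} {b : ℕ} (hb : 1 ≤ b) (hX : X = T' + ⌊x⌋)
    (hF : F = X / (b : ℤ)) (hc : c = ⌊(y + x) / (b : ℝ)⌋) :
    ((c - F : ℤ) : ℝ) ^ 2 ≤ 2 * (((T' : ℝ) - y) ^ 2 / (b : ℝ) ^ 2) + 8 := by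
  have hbr : (1 : ℝ) ≤ b := by exact_mod_cast hb
  have hb0 : (0 : ℝ) < b := by linarith
  obtain ⟨f1, f2⟩ := low_cell (X := X) (b := b) (by omega)
  have c1 := Int.floor_le ((y + x) / (b : ℝ))
  have c2 := Int.lt_floor_add_one ((y + x) / (b : ℝ))
  have x1 := Int.floor_le x
  have x2 := Int.lt_floor_add_one x
  rw [← hF] at f1 f2
  rw [← hc] at c1 c2
  have hXr : (X : ℝ) = T' + (⌊x⌋ : ℝ) := by rw [hX]; push_cast; ring
  set a : ℝ := ((T' : ℝ) - y) / b with ha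
  have e1 : (y + x) / (b : ℝ) - (X : ℝ) / b = -a + (x - (⌊x⌋ : ℝ)) / b := by
    rw [ha, hXr]
    field_simp
    ring
  have e2 : 0 ≤ (x - (⌊x⌋ : ℝ)) / b := div_nonneg (by linarith) hb0.le
  have e3 : (x - (⌊x⌋ : ℝ)) / b ≤ 1 := by
    rw [div_le_one hb0]
    linarith
  have u1 : (c : ℝ) - F ≤ -a + 2 := by linarith
  have u2 : -a - 2 ≤ (c : ℝ) - F := by linarith
  have e4 : ((T' : ℝ) - y) ^ 2 / (b : ℝ) ^ 2 = a ^ 2 := by rw [ha, div_pow]
  rw [e4]
  push_cast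
  have v1 : 0 ≤ (-a + 2 - ((c : ℝ) - F)) * (((c : ℝ) - F) - (-a - 2)) :=
    mul_nonneg (by linarith) (by linarith)
  nlinarith [sq_nonneg ((c : ℝ) - F + 2 * a), sq_nonneg ((c : ℝ) - F), sq_nonneg (a), v1]

/-- mean of `A` copies of `T` on `S` and `Q - A` copies on `S'` -/
noncomputable def low_y {Ω : Type} {k : ℕ} (S S' : Finset Ω) (T : Ω → Fin (k + 1) → ℤ) (Q A : ℕ)
    (i : Fin (k + 1)) : ℝ :=
  (A : ℝ) * ((∑ y ∈ S, (T y i : ℝ)) / S.card) +
    ((Q : ℝ) - A) * ((∑ y ∈ S', (T y i : ℝ)) / S'.card)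

/-- the sum of the copies -/
def low_T {Ω : Type} {k : ℕ} (T : Ω → Fin (k + 1) → ℤ) {Q : ℕ} (A : ℕ) (u u' : Fin Q → Ω) :
    Fin (k + 1) → ℤ := ∑ j : Fin Q, if (j : ℕ) < A then T (u j) else T (u' j)

lemma low_T_apply {Ω : Type} {k : ℕ} (T : Ω → Fin (k + 1) → ℤ) {Q : ℕ} (A : ℕ) (u u' : Fin Q → Ω)
    (i : Fin (k + 1)) :
    low_T T A u u' i = ∑ j : Fin Q, if (j : ℕ) < A then T (u j) i else T (u' j) i := by
  unfold low_T
  rw [Finset.sum_apply]
  refine Finset.sum_congr rfl fun j _ => ?_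
  split_ifs <;> rfl

lemma low_cl_cell {k : ℕ} {B s : ℕ} (hB : 0 < B) {z e : Fin (k + 1) → ℤ} (h : cl B s z = e)
    (i : Fin (k + 1)) :
    (e i : ℝ) * (B : ℝ) ^ s ≤ (z i : ℝ) ∧ (z i : ℝ) ≤ (e i : ℝ) * (B : ℝ) ^ s + (B : ℝ) ^ s := by
  have h1 : z i / ((B ^ s : ℕ) : ℤ) = e i := by
    rw [← h]
    unfold cl
    push_cast
    rfl
  have hb : 0 < B ^ s := by positivity
  have hbr : (0 : ℝ) < ((B ^ s : ℕ) : ℝ) := by exact_mod_cast hb
  obtain ⟨f1, f2⟩ := low_cell (X := z i) hb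
  rw [h1] at f1 f2
  rw [le_div_iff₀ hbr] at f1
  rw [div_lt_iff₀ hbr] at f2
  push_cast at f1 f2
  constructor
  · exact f1
  · nlinarith

/-- (b) replacing the sum of the copies by its mean -/
lemma low_D (h1 : ST_E1) (h5 : ST_E5) (h6 : ST_E6) (h10 : ST_E10) (k B : ℕ) (hB : 2 ≤ B)
    (Y : Type) [Fintype Y] [Nonempty Y] (xx : Y → Fin (k + 1) → ℝ) (s q p Q : ℕ) (_hsq : s ≤ q)
    (hqp : q ≤ p) (h2q : p + s ≤ 2 * q) (hQ : Q = B ^ (p - s)) (Ω : Type) (S S' : Finset Ω)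
    (hS : S.Nonempty) (hS' : S'.Nonempty) (T : Ω → Fin (k + 1) → ℤ) (e e' : Fin (k + 1) → ℤ)
    (he : ∀ x ∈ S, cl B s (T x) = e) (he' : ∀ x ∈ S', cl B s (T x) = e') :
    ent ((univ : Finset Y) ×ˢ Finset.range Q)
        (fun a => fun i => ⌊(low_y S S' T Q a.2 i + xx a.1 i) / ((B ^ q : ℕ) : ℝ)⌋) -
        ((k + 1 : ℕ) : ℝ) * 12 ≤
      ent (((univ : Finset Y) ×ˢ Finset.range Q) ×ˢ
          ((Fintype.piFinset (fun _ : Fin Q => S)) ×ˢ (Fintype.piFinset (fun _ : Fin Q => S'))))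
        (fun w => cl B q (low_T T w.1.2 w.2.1 w.2.2 + fl (xx w.1.1))) := by
  have hB0 : 0 < B := by omega
  have hBr : (0 : ℝ) < B := by exact_mod_cast hB0
  have hbq : 1 ≤ B ^ q := Nat.one_le_iff_ne_zero.2 (by positivity)
  have hQ0 : 0 < Q := by rw [hQ]; positivity
  have hpS : (Fintype.piFinset (fun _ : Fin Q => S)).Nonempty :=
    Fintype.piFinset_nonempty.2 fun _ => hS
  have hpS' : (Fintype.piFinset (fun _ : Fin Q => S')).Nonempty :=
    Fintype.piFinset_nonempty.2 fun _ => hS'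
  have hA : ((univ : Finset Y) ×ˢ Finset.range Q).Nonempty :=
    Finset.univ_nonempty.product (Finset.nonempty_range_iff.2 hQ0.ne')
  have hPP := hpS.product hpS'
  set PP := (Fintype.piFinset (fun _ : Fin Q => S)) ×ˢ (Fintype.piFinset (fun _ : Fin Q => S')) with hPPd
  set AA := (univ : Finset Y) ×ˢ Finset.range Q with hAAd
  set F : (Y × ℕ) × ((Fin Q → Ω) × (Fin Q → Ω)) → Fin (k + 1) → ℤ :=
    fun w => cl B q (low_T T w.1.2 w.2.1 w.2.2 + fl (xx w.1.1)) with hF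
  set c' : Y × ℕ → Fin (k + 1) → ℤ :=
    fun a => fun i => ⌊(low_y S S' T Q a.2 i + xx a.1 i) / ((B ^ q : ℕ) : ℝ)⌋ with hc'
  have hE5 := h5.1 (Y × ℕ) ((Fin Q → Ω) × (Fin Q → Ω)) (Fin (k + 1) → ℤ) AA PP c' hPP
  rw [← hE5]
  have e1 : ent (AA ×ˢ PP) (fun x => c' x.1) ≤ ent (AA ×ˢ PP) (fun x => (F x, c' x.1 - F x)) := by
    refine h1.1 _ _ _ _ _ _ ?_
    intro x _ y _ hxy
    have a1 := congrArg Prod.fst hxy
    have a2 := congrArg Prod.snd hxy
    simp only [] at a1 a2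
    have : c' x.1 = (c' x.1 - F x) + F x := by abel
    rw [this, a2, a1]
    abel
  have e2 := h1.2.2.2 _ _ _ (AA ×ˢ PP) F (fun x => c' x.1 - F x)
  have e3 : ent (AA ×ˢ PP) (fun x => c' x.1 - F x) ≤ ((k + 1 : ℕ) : ℝ) * (10 + 2) := by
    refine h6 _ (k + 1) (AA ×ˢ PP) (fun x => c' x.1 - F x) 10 (hA.product hPP) ?_
    intro i
    have hcard : (0 : ℝ) < ((AA ×ˢ PP).card : ℝ) := by
      exact_mod_cast Finset.card_pos.2 (hA.product hPP)
    rw [div_le_iff₀ hcard]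
    have hpt : ∀ x ∈ AA ×ˢ PP, ((((c' x.1 - F x) i : ℤ)) : ℝ) ^ 2 ≤
        2 * ((((low_T T x.1.2 x.2.1 x.2.2 i : ℤ) : ℝ) - low_y S S' T Q x.1.2 i) ^ 2 /
          ((B ^ q : ℕ) : ℝ) ^ 2) + 8 := by
      intro x _
      refine low_dev (X := (low_T T x.1.2 x.2.1 x.2.2 + fl (xx x.1.1)) i) (x := xx x.1.1 i)
        (b := B ^ q) hbq rfl ?_ rfl
      rw [hF]
      unfold cl
      push_cast
      rfl
    refine (Finset.sum_le_sum hpt).trans ?_
    rw [Finset.sum_add_distrib, ← Finset.mul_sum, ← Finset.sum_div, Finset.sum_const, nsmul_eq_mul]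
    have hvar : ∑ x ∈ AA ×ˢ PP, (((low_T T x.1.2 x.2.1 x.2.2 i : ℤ) : ℝ) - low_y S S' T Q x.1.2 i) ^ 2
        ≤ ((AA ×ˢ PP).card : ℝ) * (Q * ((B : ℝ) ^ s) ^ 2) := by
      rw [Finset.sum_product]
      have hrow : ∀ a ∈ AA, ∑ b ∈ PP, (((low_T T a.2 b.1 b.2 i : ℤ) : ℝ) - low_y S S' T Q a.2 i) ^ 2
          ≤ (PP.card : ℝ) * (Q * ((B : ℝ) ^ s) ^ 2) := by
        intro a ha
        have haQ : a.2 ≤ Q := by
          have := (Finset.mem_product.1 ha).2
          exact (Finset.mem_range.1 this).le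
        have h := h10 Ω S S' (fun y => (T y i : ℝ)) Q ((e i : ℝ) * (B : ℝ) ^ s)
          ((e' i : ℝ) * (B : ℝ) ^ s) ((B : ℝ) ^ s) hS hS'
          (fun x hx => low_cl_cell hB0 (he x hx) i) (fun x hx => low_cl_cell hB0 (he' x hx) i) a.2 haQ
        have hPc : (0 : ℝ) < ((PP.card : ℕ) : ℝ) := by exact_mod_cast Finset.card_pos.2 hPP
        rw [div_le_iff₀ hPc] at h
        refine le_trans (le_of_eq ?_) (h.trans (le_of_eq (mul_comm _ _)))
        refine Finset.sum_congr rfl fun b _ => ?_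
        rw [low_T_apply]
        unfold low_y
        push_cast
        rfl
      refine (Finset.sum_le_sum hrow).trans (le_of_eq ?_)
      rw [Finset.sum_const, nsmul_eq_mul, Finset.card_product AA PP]
      push_cast
      ring
    have hQs : (Q : ℝ) * ((B : ℝ) ^ s) ^ 2 ≤ ((B ^ q : ℕ) : ℝ) ^ 2 := by
      rw [hQ]
      push_cast
      rw [← pow_mul, ← pow_add, ← pow_mul]
      refine pow_le_pow_right₀ (by exact_mod_cast hB0) ?_
      omega
    have hb2 : (0 : ℝ) < ((B ^ q : ℕ) : ℝ) ^ 2 := by positivity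
    have hfin : (∑ x ∈ AA ×ˢ PP, (((low_T T x.1.2 x.2.1 x.2.2 i : ℤ) : ℝ) -
        low_y S S' T Q x.1.2 i) ^ 2) / ((B ^ q : ℕ) : ℝ) ^ 2 ≤ ((AA ×ˢ PP).card : ℝ) := by
      rw [div_le_iff₀ hb2]
      exact hvar.trans (mul_le_mul_of_nonneg_left hQs hcard.le)
    linarith
  have e4 : ((k + 1 : ℕ) : ℝ) * (10 + 2) = ((k + 1 : ℕ) : ℝ) * 12 := by norm_num
  rw [e4] at e3
  linarith

/-- (c) the mixture of the means -/
lemma low_C (h1 : ST_E1) (h2 : ST_E2) (h5 : ST_E5) (hf : ST_FRM) (m k B : ℕ) (hB : 2 ≤ B)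
    (hkm : k + 1 ≤ m) (Y : Type) [Fintype Y] [Nonempty Y] (PJ : Y → Fin m → ℝ)
    (π : Matrix (Fin (k + 1)) (Fin m) ℝ) (hπ : Frame π) (y g : Fin (k + 1) → ℝ)
    (i0 : Fin (k + 1)) (d lam : ℕ) (hy : 1 ≤ (B : ℝ) ^ d * |y i0|) (G : ℝ)
    (hG : ∀ Qy : Matrix (Fin k) (Fin m) ℝ, Frame Qy →
      G ≤ ent (univ : Finset Y) (fun J => fl (Qy.mulVec (PJ J)))) :
    G + (lam : ℝ) * Real.log B - (Real.log 2 + m * Real.log 2 + m * Real.log ((2 * m + 1 : ℕ) : ℝ)) ≤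
      ent ((univ : Finset Y) ×ˢ Finset.range (B ^ (d + lam)))
        (fun a => fun i => ⌊(a.2 : ℝ) * y i + (g i + (π.mulVec (PJ a.1)) i)⌋) := by
  obtain ⟨Qy, hQF, hQy⟩ := hf.2.2.2.1 k y
  have hFr : Frame (Qy * π) := hf.2.2.2.2.1 k (k + 1) m Qy π hQF hπ
  have hne : (Finset.range (B ^ (d + lam))).Nonempty := by
    rw [Finset.nonempty_range_iff]
    positivity
  set RQ := Finset.range (B ^ (d + lam)) with hRQ
  set AA := (univ : Finset Y) ×ˢ RQ with hAA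
  set c : Y × ℕ → Fin (k + 1) → ℤ :=
    fun a => fun i => ⌊(a.2 : ℝ) * y i + (g i + (π.mulVec (PJ a.1)) i)⌋ with hc
  set h : Y → Fin k → ℤ := fun J => fl (fun j => (Qy.mulVec g) j + ((Qy * π).mulVec (PJ J)) j) with hh
  -- (i)
  have i1 : cent AA (fun a => h a.1) c ≤ Real.log (((2 * (k + 1) + 1) ^ k : ℕ) : ℝ) := by
    refine h2.1 _ _ _ AA (fun a => h a.1) c _ ?_
    intro v
    refine ⟨Fintype.piFinset (fun j : Fin k =>
      Finset.Icc (⌊(Qy.mulVec (fun i => (v i : ℝ))) j⌋ - (k + 1 : ℕ))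
        (⌊(Qy.mulVec (fun i => (v i : ℝ))) j⌋ - (k + 1 : ℕ) + (2 * (k + 1) : ℕ))),
      (low_box k _ _).le, ?_⟩
    intro a _ hav
    rw [Fintype.mem_piFinset]
    intro j
    set V : Fin (k + 1) → ℝ := fun i => (a.2 : ℝ) * y i + (g i + (π.mulVec (PJ a.1)) i) with hV
    have hvi : ∀ i, (v i : ℝ) ≤ V i ∧ V i < (v i : ℝ) + 1 := by
      intro i
      have : v i = ⌊V i⌋ := by rw [← hav]
      rw [this]
      exact ⟨Int.floor_le _, Int.lt_floor_add_one _⟩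
    have hQV : (Qy.mulVec V) j = (Qy.mulVec g) j + ((Qy * π).mulVec (PJ a.1)) j := by
      have e1 : V = (a.2 : ℝ) • y + (g + π.mulVec (PJ a.1)) := by
        funext i
        rfl
      rw [e1, Matrix.mulVec_add, Matrix.mulVec_smul, hQy, Matrix.mulVec_add, Matrix.mulVec_mulVec]
      simp
    have hdiff : |(Qy.mulVec (fun i => V i - (v i : ℝ))) j| ≤ ((k + 1 : ℕ) : ℝ) * 1 := by
      refine hf.2.2.1 k (k + 1) Qy hQF _ 1 ?_ j
      intro i
      rw [abs_le]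
      constructor <;> linarith [(hvi i).1, (hvi i).2]
    have hsub : (Qy.mulVec (fun i => V i - (v i : ℝ))) j =
        (Qy.mulVec V) j - (Qy.mulVec (fun i => (v i : ℝ))) j := by
      have e2 : (fun i => V i - (v i : ℝ)) = V - (fun i => (v i : ℝ)) := by
        funext i
        rfl
      rw [e2, Matrix.mulVec_sub]
      rfl
    rw [hsub, mul_one, abs_le] at hdiff
    have hfl : h a.1 j = ⌊(Qy.mulVec V) j⌋ := by
      rw [hQV]
      rfl
    rw [hfl, Finset.mem_Icc]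
    have k1 := Int.floor_le ((Qy.mulVec V) j)
    have k2 := Int.lt_floor_add_one ((Qy.mulVec V) j)
    have k3 := Int.floor_le ((Qy.mulVec (fun i => (v i : ℝ))) j)
    have k4 := Int.lt_floor_add_one ((Qy.mulVec (fun i => (v i : ℝ))) j)
    constructor
    · have : ((⌊(Qy.mulVec (fun i => (v i : ℝ))) j⌋ - (k + 1 : ℕ) : ℤ) : ℝ) <
          ((⌊(Qy.mulVec V) j⌋ + 1 : ℤ) : ℝ) := by
        push_cast at hdiff ⊢
        linarith [hdiff.1]
      have := Int.cast_lt.1 this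
      omega
    · have : ((⌊(Qy.mulVec V) j⌋ : ℤ) : ℝ) <
          ((⌊(Qy.mulVec (fun i => (v i : ℝ))) j⌋ + 1 + (k + 1 : ℕ) : ℤ) : ℝ) := by
        push_cast at hdiff ⊢
        linarith [hdiff.2]
      have := Int.cast_lt.1 this
      omega
  -- (viii)
  have i8 : cent (univ : Finset Y) (fun J => fl ((Qy * π).mulVec (PJ J))) h ≤
      Real.log (((1 + 1) ^ k : ℕ) : ℝ) := by
    refine h2.1 _ _ _ _ _ _ _ ?_
    intro v
    refine ⟨Fintype.piFinset (fun j : Fin k =>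
      Finset.Icc (v j - ⌊(Qy.mulVec g) j⌋ - 1) (v j - ⌊(Qy.mulVec g) j⌋ - 1 + (1 : ℕ))),
      (low_box k _ _).le, ?_⟩
    intro J _ hJ
    rw [Fintype.mem_piFinset]
    intro j
    have hvj : v j = ⌊(Qy.mulVec g) j + ((Qy * π).mulVec (PJ J)) j⌋ := by rw [← hJ]; rfl
    have t1 := Int.le_floor_add ((Qy.mulVec g) j) (((Qy * π).mulVec (PJ J)) j)
    have t2 := Int.le_floor_add_floor ((Qy.mulVec g) j) (((Qy * π).mulVec (PJ J)) j)
    rw [← hvj] at t1 t2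
    rw [Finset.mem_Icc]
    unfold fl
    push_cast
    constructor <;> linarith
  have i9 : ent (univ : Finset Y) (fun J => fl ((Qy * π).mulVec (PJ J))) ≤
      ent (univ : Finset Y) (fun J => (fl ((Qy * π).mulVec (PJ J)), h J)) :=
    h1.1 _ _ _ _ _ _ fun x _ z _ hxz => congrArg Prod.fst hxz
  have i10 := hG (Qy * π) hFr
  have i7 : ent AA (fun a => h a.1) = ent (univ : Finset Y) h := h5.1 _ _ _ _ _ h hne
  -- (ii)
  have i2 := h1.2.1 _ _ _ _ AA c (fun a => a.1) (fun a => h a.1)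
  have i3 : ent AA (fun a => (a.1, h a.1)) ≤ ent AA (fun a : Y × ℕ => a.1) := by
    refine h1.1 _ _ _ _ _ _ ?_
    intro x _ z _ hxz
    have hxz' : x.1 = z.1 := hxz
    show (x.1, h x.1) = (z.1, h z.1)
    rw [hxz']
  have i4 : ent AA (fun a => (c a, a.1)) ≤ ent AA (fun a => (c a, a.1, h a.1)) := by
    refine h1.1 _ _ _ _ _ _ ?_
    intro x _ z _ hxz
    have a1 := congrArg Prod.fst hxz
    have a2 := congrArg (fun p => p.2.1) hxz
    exact Prod.ext a1 a2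
  have i5 : ent AA (fun a => (c a, h a.1)) ≤ ent AA (fun a => (h a.1, c a)) := by
    refine h1.1 _ _ _ _ _ _ ?_
    intro x _ z _ hxz
    have a1 := congrArg Prod.fst hxz
    have a2 := congrArg Prod.snd hxz
    exact Prod.ext a2 a1
  have i6 : (lam : ℝ) * Real.log B - Real.log 2 ≤ cent AA c (fun a => a.1) := by
    have e := h5.2.2.2.1 Y ℕ (Fin (k + 1) → ℤ) univ RQ
      (fun J A => fun i => ⌊(A : ℝ) * y i + (g i + (π.mulVec (PJ J)) i)⌋) Finset.univ_nonempty hne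
    have e' : cent AA c (fun a => a.1) = _ := e
    rw [e']
    have hcp : (0 : ℝ) < ((univ : Finset Y).card : ℝ) := by
      exact_mod_cast Finset.card_pos.2 (Finset.univ_nonempty (α := Y))
    rw [le_div_iff₀ hcp]
    have hs : ∑ _J ∈ (univ : Finset Y), ((lam : ℝ) * Real.log B - Real.log 2) ≤
        ∑ J ∈ (univ : Finset Y), ent RQ (fun A : ℕ => fun i =>
          ⌊(A : ℝ) * y i + (g i + (π.mulVec (PJ J)) i)⌋) :=
      Finset.sum_le_sum fun J _ => low_line h2 k B hB d lam y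
        (fun i => g i + (π.mulVec (PJ J)) i) i0 hy
    rw [Finset.sum_const, nsmul_eq_mul] at hs
    linarith
  -- constants
  have hk : (k : ℝ) ≤ m := by
    have : k ≤ m := by omega
    exact_mod_cast this
  have c1 : Real.log (((2 * (k + 1) + 1) ^ k : ℕ) : ℝ) ≤ m * Real.log ((2 * m + 1 : ℕ) : ℝ) := by
    rw [Nat.cast_pow, Real.log_pow]
    have l1 : Real.log ((2 * (k + 1) + 1 : ℕ) : ℝ) ≤ Real.log ((2 * m + 1 : ℕ) : ℝ) := by
      apply Real.log_le_log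
      · positivity
      · exact_mod_cast (by omega : 2 * (k + 1) + 1 ≤ 2 * m + 1)
    have l2 : 0 ≤ Real.log ((2 * m + 1 : ℕ) : ℝ) := Real.log_natCast_nonneg _
    calc (k : ℝ) * Real.log ((2 * (k + 1) + 1 : ℕ) : ℝ) ≤ k * Real.log ((2 * m + 1 : ℕ) : ℝ) :=
          mul_le_mul_of_nonneg_left l1 (Nat.cast_nonneg _)
      _ ≤ m * Real.log ((2 * m + 1 : ℕ) : ℝ) := mul_le_mul_of_nonneg_right hk l2
  have c2 : Real.log (((1 + 1) ^ k : ℕ) : ℝ) ≤ m * Real.log 2 := by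
    rw [Nat.cast_pow, Real.log_pow]
    have : Real.log ((1 + 1 : ℕ) : ℝ) = Real.log 2 := by norm_num
    rw [this]
    exact mul_le_mul_of_nonneg_right hk (Real.log_nonneg (by norm_num))
  unfold cent at i1 i6 i8
  have i1' : ent AA (fun a => (h a.1, c a)) - ent AA c ≤ Real.log (((2 * (k + 1) + 1) ^ k : ℕ) : ℝ) := i1
  have i6' : (lam : ℝ) * Real.log B - Real.log 2 ≤ ent AA (fun a => (c a, a.1)) -
    ent AA (fun a : Y × ℕ => a.1) := i6
  have i2' : ent AA (fun a => (c a, a.1, h a.1)) + ent AA (fun a => h a.1) ≤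
    ent AA (fun a => (c a, h a.1)) + ent AA (fun a => (a.1, h a.1)) := i2
  linarith

/-- reparametrization of the words: `((hi, lo), ((J, A), (u, u')))` -/
def low_e {ι Ω : Type} (n0 lam q Q : ℕ)
    (x : ((Fin n0 → ι) × (Fin q → ι)) × (((Fin lam → ι) × ℕ) × ((Fin Q → Ω) × (Fin Q → Ω)))) :
    ℕ × (Fin Q → Ω) × (Fin Q → Ω) × (Fin (n0 + lam + q) → ι) :=
  (x.2.1.2, x.2.2.1, x.2.2.2, Fin.append (Fin.append x.1.1 x.2.1.1) x.1.2)

lemma low_append_inj {ι : Type} {a b : ℕ} {u u' : Fin a → ι} {v v' : Fin b → ι}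
    (h : Fin.append u v = Fin.append u' v') : u = u' ∧ v = v' := by
  constructor
  · funext i
    have := congrFun h (Fin.castAdd b i)
    rwa [Fin.append_left, Fin.append_left] at this
  · funext i
    have := congrFun h (Fin.natAdd a i)
    rwa [Fin.append_right, Fin.append_right] at this

lemma low_bij {ι Ω : Type} [Fintype ι] (n0 lam q Q : ℕ) (S S' : Finset Ω) :
    Set.BijOn (low_e (ι := ι) (Ω := Ω) n0 lam q Q)
      (((univ : Finset ((Fin n0 → ι) × (Fin q → ι))) ×ˢ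
        (((univ : Finset (Fin lam → ι)) ×ˢ Finset.range Q) ×ˢ
          ((Fintype.piFinset (fun _ : Fin Q => S)) ×ˢ (Fintype.piFinset (fun _ : Fin Q => S')))) :
        Finset (((Fin n0 → ι) × (Fin q → ι)) × (((Fin lam → ι) × ℕ) × ((Fin Q → Ω) × (Fin Q → Ω))))) :
        Set (((Fin n0 → ι) × (Fin q → ι)) × (((Fin lam → ι) × ℕ) × ((Fin Q → Ω) × (Fin Q → Ω)))))
      (((Finset.range Q) ×ˢ (Fintype.piFinset (fun _ : Fin Q => S)) ×ˢ
          (Fintype.piFinset (fun _ : Fin Q => S')) ×ˢ (univ : Finset (Fin (n0 + lam + q) → ι)) :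
        Finset (ℕ × (Fin Q → Ω) × (Fin Q → Ω) × (Fin (n0 + lam + q) → ι))) :
        Set (ℕ × (Fin Q → Ω) × (Fin Q → Ω) × (Fin (n0 + lam + q) → ι))) := by
  refine ⟨?_, ?_, ?_⟩
  · intro x hx
    rw [Finset.mem_coe, Finset.mem_product, Finset.mem_product, Finset.mem_product,
      Finset.mem_product] at hx
    rw [Finset.mem_coe, Finset.mem_product, Finset.mem_product, Finset.mem_product]
    exact ⟨hx.2.1.2, hx.2.2.1, hx.2.2.2, Finset.mem_univ _⟩
  · intro x _ z _ hxz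
    obtain ⟨⟨hi, lo⟩, ⟨⟨J, A⟩, ⟨u, u'⟩⟩⟩ := x
    obtain ⟨⟨hi', lo'⟩, ⟨⟨J', A'⟩, ⟨v, v'⟩⟩⟩ := z
    unfold low_e at hxz
    simp only [Prod.mk.injEq] at hxz
    obtain ⟨e1, e2, e3, e4⟩ := hxz
    obtain ⟨e5, e6⟩ := low_append_inj e4
    obtain ⟨e7, e8⟩ := low_append_inj e5
    rw [e1, e2, e3, e6, e7, e8]
  · intro z hz
    obtain ⟨A, u, u', v⟩ := z
    rw [Finset.mem_coe, Finset.mem_product, Finset.mem_product, Finset.mem_product] at hz
    refine ⟨((fun i => v (Fin.castAdd q (Fin.castAdd lam i)), fun i => v (Fin.natAdd (n0 + lam) i)),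
      ((fun i => v (Fin.castAdd q (Fin.natAdd n0 i)), A), (u, u'))), ?_, ?_⟩
    · rw [Finset.mem_coe, Finset.mem_product, Finset.mem_product, Finset.mem_product,
        Finset.mem_product]
      exact ⟨Finset.mem_univ _, ⟨Finset.mem_univ _, hz.1⟩, hz.2.1, hz.2.2.1⟩
    · unfold low_e
      simp only [Prod.mk.injEq, true_and]
      have a1 : Fin.append (fun i => v (Fin.castAdd q (Fin.castAdd lam i)))
          (fun i => v (Fin.castAdd q (Fin.natAdd n0 i))) = fun j => v (Fin.castAdd q j) :=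
        Fin.append_castAdd_natAdd (f := fun j => v (Fin.castAdd q j))
      rw [a1]
      exact Fin.append_castAdd_natAdd (f := v)

/-- (a) number of values of the coarse cell for fixed `hi, lo` -/
lemma low_A {Ω : Type} (k B w s p Q N1 : ℕ) (hB : 2 ≤ B) (hsp : s ≤ p) (hQ : Q = B ^ (p - s))
    (S S' : Finset Ω) (T : Ω → Fin (k + 1) → ℤ) (e e' : Fin (k + 1) → ℤ)
    (he : ∀ x ∈ S, cl B s (T x) = e) (he' : ∀ x ∈ S', cl B s (T x) = e')
    (hee : ∀ i, e i / (B : ℤ) ^ w = e' i / (B : ℤ) ^ w) (κ0 : Fin (k + 1) → ℝ) (A : ℕ)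
    (u u' : Fin Q → Ω) (hu : ∀ j, u j ∈ S) (hu' : ∀ j, u' j ∈ S') (x : Fin (k + 1) → ℝ)
    (hx : ∀ i, |x i - κ0 i| ≤ N1 * (B : ℝ) ^ p) :
    cl B p (low_T T A u u' + fl x) ∈ Fintype.piFinset (fun i : Fin (k + 1) =>
      Finset.Icc (⌊((e i / (B : ℤ) ^ w : ℤ) : ℝ) * (B : ℝ) ^ w + κ0 i / (B : ℝ) ^ p⌋ - N1 - 2)
        (⌊((e i / (B : ℤ) ^ w : ℤ) : ℝ) * (B : ℝ) ^ w + κ0 i / (B : ℝ) ^ p⌋ - N1 - 2 +
          (B ^ w + 2 * N1 + 3 : ℕ))) := by
  have hB0 : 0 < B := by omega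
  have hBr : (0 : ℝ) < B := by exact_mod_cast hB0
  have hBz : (0 : ℤ) < B := by exact_mod_cast hB0
  have hpr : (0 : ℝ) < (B : ℝ) ^ p := by positivity
  have hp1 : (1 : ℝ) ≤ (B : ℝ) ^ p := one_le_pow₀ (by exact_mod_cast hB0)
  rw [Fintype.mem_piFinset]
  intro i
  set E : ℤ := e i / (B : ℤ) ^ w with hE
  -- one letter
  have hone : ∀ (z : Fin (k + 1) → ℤ) (e1 : Fin (k + 1) → ℤ), cl B s z = e1 →
      e1 i / (B : ℤ) ^ w = E → (E : ℝ) * (B : ℝ) ^ (s + w) ≤ (z i : ℝ) ∧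
        (z i : ℝ) ≤ (E : ℝ) * (B : ℝ) ^ (s + w) + (B : ℝ) ^ (s + w) := by
    intro z e1 h1 h2
    have h3 : z i / ((B ^ (s + w) : ℕ) : ℤ) = E := by
      rw [← h2, ← h1]
      unfold cl
      rw [Int.ediv_ediv_of_nonneg (by positivity)]
      push_cast
      rw [pow_add]
    obtain ⟨f1, f2⟩ := low_cell (X := z i) (b := B ^ (s + w)) (by positivity)
    have hbr : (0 : ℝ) < ((B ^ (s + w) : ℕ) : ℝ) := by
      push_cast
      positivity
    rw [h3] at f1 f2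
    rw [le_div_iff₀ hbr] at f1
    rw [div_lt_iff₀ hbr] at f2
    push_cast at f1 f2
    constructor
    · exact f1
    · nlinarith
  have hQB : (Q : ℝ) * (B : ℝ) ^ (s + w) = (B : ℝ) ^ p * (B : ℝ) ^ w := by
    rw [hQ]
    push_cast
    rw [← pow_add, ← pow_add]
    congr 1
    omega
  have hsum : (E : ℝ) * ((B : ℝ) ^ p * (B : ℝ) ^ w) ≤ ((low_T T A u u' i : ℤ) : ℝ) ∧
      ((low_T T A u u' i : ℤ) : ℝ) ≤ (E : ℝ) * ((B : ℝ) ^ p * (B : ℝ) ^ w) +
        (B : ℝ) ^ p * (B : ℝ) ^ w := by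
    rw [low_T_apply, ← hQB]
    push_cast
    have hterm : ∀ j : Fin Q, (E : ℝ) * (B : ℝ) ^ (s + w) ≤
        (if (j : ℕ) < A then ((T (u j) i : ℤ) : ℝ) else ((T (u' j) i : ℤ) : ℝ)) ∧
        (if (j : ℕ) < A then ((T (u j) i : ℤ) : ℝ) else ((T (u' j) i : ℤ) : ℝ)) ≤
          (E : ℝ) * (B : ℝ) ^ (s + w) + (B : ℝ) ^ (s + w) := by
      intro j
      split_ifs
      · exact hone _ e (he _ (hu j)) rfl
      · exact hone _ e' (he' _ (hu' j)) (hee i).symm
    constructor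
    · have := Finset.sum_le_sum fun (j : Fin Q) (_ : j ∈ univ) => (hterm j).1
      rw [Finset.sum_const, Finset.card_univ, Fintype.card_fin, nsmul_eq_mul] at this
      linarith
    · have := Finset.sum_le_sum fun (j : Fin Q) (_ : j ∈ univ) => (hterm j).2
      rw [Finset.sum_const, Finset.card_univ, Fintype.card_fin, nsmul_eq_mul] at this
      linarith
  set X : ℤ := (low_T T A u u' + fl x) i with hX
  have hXr : (X : ℝ) = ((low_T T A u u' i : ℤ) : ℝ) + (⌊x i⌋ : ℝ) := by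
    rw [hX]
    have : (low_T T A u u' + fl x) i = low_T T A u u' i + ⌊x i⌋ := rfl
    rw [this]
    push_cast
    ring
  have hcl : cl B p (low_T T A u u' + fl x) i = X / ((B ^ p : ℕ) : ℤ) := by
    unfold cl
    push_cast
    rfl
  rw [hcl]
  obtain ⟨f1, f2⟩ := low_cell (X := X) (b := B ^ p) (by positivity)
  set c : ℤ := X / ((B ^ p : ℕ) : ℤ) with hc
  have hbr : (0 : ℝ) < ((B ^ p : ℕ) : ℝ) := by
    push_cast
    positivity
  rw [le_div_iff₀ hbr] at f1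
  rw [div_lt_iff₀ hbr] at f2
  push_cast at f1 f2
  have x1 := Int.floor_le (x i)
  have x2 := Int.lt_floor_add_one (x i)
  have hxi := abs_le.1 (hx i)
  set b : ℝ := (E : ℝ) * (B : ℝ) ^ w + κ0 i / (B : ℝ) ^ p with hb
  have b1 := Int.floor_le b
  have b2 := Int.lt_floor_add_one b
  have hbp : b * (B : ℝ) ^ p = (E : ℝ) * ((B : ℝ) ^ p * (B : ℝ) ^ w) + κ0 i := by
    rw [hb]
    field_simp
  have hlow : (b - N1 - 2) * (B : ℝ) ^ p < (c : ℝ) * (B : ℝ) ^ p := by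
    have : (b - N1 - 2) * (B : ℝ) ^ p = b * (B : ℝ) ^ p - N1 * (B : ℝ) ^ p - 2 * (B : ℝ) ^ p := by
      ring
    nlinarith [hsum.1, hxi.1]
  have hup : (c : ℝ) * (B : ℝ) ^ p ≤ (b + N1 + (B : ℝ) ^ w) * (B : ℝ) ^ p := by
    have : (b + N1 + (B : ℝ) ^ w) * (B : ℝ) ^ p =
      b * (B : ℝ) ^ p + N1 * (B : ℝ) ^ p + (B : ℝ) ^ p * (B : ℝ) ^ w := by
      ring
    nlinarith [hsum.2, hxi.2]
  have g1 : b - N1 - 2 < (c : ℝ) := lt_of_mul_lt_mul_right hlow hpr.le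
  have g2 : (c : ℝ) ≤ b + N1 + (B : ℝ) ^ w := le_of_mul_le_mul_right hup hpr
  rw [Finset.mem_Icc]
  constructor
  · have : ((⌊b⌋ - N1 - 2 : ℤ) : ℝ) < (c : ℝ) := by
      push_cast
      linarith
    exact (Int.cast_lt.1 this).le
  · have : (c : ℝ) < ((⌊b⌋ - N1 - 2 + (B ^ w + 2 * N1 + 3 : ℕ) : ℤ) : ℝ) := by
      push_cast
      linarith
    exact (Int.cast_lt.1 this).le

lemma low_mean {Ω : Type} {S : Finset Ω} (hS : S.Nonempty) {f : Ω → ℝ} {lo w : ℝ}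
    (h : ∀ x ∈ S, lo ≤ f x ∧ f x ≤ lo + w) :
    lo ≤ (∑ y ∈ S, f y) / S.card ∧ (∑ y ∈ S, f y) / S.card ≤ lo + w := by
  have hc : (0 : ℝ) < (S.card : ℝ) := by exact_mod_cast Finset.card_pos.2 hS
  rw [le_div_iff₀ hc, div_le_iff₀ hc]
  constructor
  · have := Finset.sum_le_sum fun x hx => (h x hx).1
    rw [Finset.sum_const, nsmul_eq_mul] at this
    linarith
  · have := Finset.sum_le_sum fun x hx => (h x hx).2
    rw [Finset.sum_const, nsmul_eq_mul] at this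
    linarith

theorem st_LOW (h1 : ST_E1) (h2 : ST_E2) (h5 : ST_E5) (h6 : ST_E6) (h10 : ST_E10) (hf : ST_FRM)
    (hpb : ST_PB) (hsup : ST_SUP) : ST_LOW := by
  intro m B w R hm hB hR
  have hB0 : 0 < B := by omega
  have hBr : (0 : ℝ) < B := by exact_mod_cast hB0
  set N1 : ℕ := ⌈(m : ℝ) * (R + B)⌉₊ with hN1
  have hN1r : (m : ℝ) * (R + B) ≤ N1 := Nat.le_ceil _
  refine ⟨12 * m + (Real.log 2 + m * Real.log 2 + m * Real.log ((2 * m + 1 : ℕ) : ℝ)) +
    m * Real.log ((B ^ w + 2 * N1 + 3 + 1 : ℕ) : ℝ), ?_, ?_⟩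
  · have := Real.log_natCast_nonneg (2 * m + 1)
    have := Real.log_natCast_nonneg (B ^ w + 2 * N1 + 3 + 1)
    have : 0 ≤ Real.log 2 := Real.log_nonneg (by norm_num)
    positivity
  intro ι _ _ σ t k π i n q lam s Q Ω S S' T e e' ht0 ht1 hok hπ hqn hsq h2q hQ hS hS' he he' hee hdiff
  obtain ⟨n0, rfl⟩ : ∃ n0, n = n0 + lam + q := ⟨n - (q + lam), by omega⟩
  have hidx : n0 + lam + q - (q + lam) = n0 := by omega
  rw [hidx]
  have hkm : k + 1 ≤ m := hf.2.2.2.2.2.2 (k + 1) m π hπ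
  have hQ' : Q = B ^ ((q - s) + lam) := by
    rw [hQ]
    congr 1
    omega
  have hQ0 : 0 < Q := by rw [hQ]; positivity
  obtain ⟨p1, p2, -, -, -⟩ := hpb m B R t ι σ hB hR ht0 ht1 hok
  have hsupG := (hsup m B R t ι σ k hm hB hR ht0 ht1 hok (by omega)).2.2.2.2.1
  have hpS : (Fintype.piFinset (fun _ : Fin Q => S)).Nonempty :=
    Fintype.piFinset_nonempty.2 fun _ => hS
  have hpS' : (Fintype.piFinset (fun _ : Fin Q => S')).Nonempty :=
    Fintype.piFinset_nonempty.2 fun _ => hS'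
  set WW : Finset (((Fin lam → ι) × ℕ) × ((Fin Q → Ω) × (Fin Q → Ω))) :=
    ((univ : Finset (Fin lam → ι)) ×ˢ Finset.range Q) ×ˢ
      ((Fintype.piFinset (fun _ : Fin Q => S)) ×ˢ (Fintype.piFinset (fun _ : Fin Q => S'))) with hWW
  have hWWne : WW.Nonempty :=
    (Finset.univ_nonempty.product (Finset.nonempty_range_iff.2 hQ0.ne')).product (hpS.product hpS')
  set κ0 : (Fin n0 → ι) × (Fin q → ι) → Fin (k + 1) → ℝ := fun z j =>
    (B : ℝ) ^ q * ((B : ℝ) ^ lam * (π.mulVec (σ.P B t i n0 z.1)) j) +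
      (π.mulVec (σ.P B t (i + (n0 + lam)) q z.2)) j with hκ0
  set PJ : (Fin lam → ι) → Fin m → ℝ := fun J => σ.P B t (i + n0) lam J with hPJ
  set xx : (Fin n0 → ι) × (Fin q → ι) → (Fin lam → ι) → Fin (k + 1) → ℝ := fun z J j =>
    κ0 z j + (B : ℝ) ^ q * (π.mulVec (PJ J)) j with hxx
  have hP : ∀ (z : (Fin n0 → ι) × (Fin q → ι)) (J : Fin lam → ι),
      π.mulVec (σ.P B t i (n0 + lam + q) (Fin.append (Fin.append z.1 J) z.2)) = xx z J := by
    intro z J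
    have e1 : σ.P B t i (n0 + lam + q) (Fin.append (Fin.append z.1 J) z.2) =
        (B : ℝ) ^ q • ((B : ℝ) ^ lam • σ.P B t i n0 z.1 + PJ J) + σ.P B t (i + (n0 + lam)) q z.2 := by
      funext c
      rw [p1 i (n0 + lam) q (Fin.append z.1 J) z.2 c, p1 i n0 lam z.1 J c]
      rfl
    rw [e1, Matrix.mulVec_add, Matrix.mulVec_smul, Matrix.mulVec_add, Matrix.mulVec_smul]
    funext j
    rw [hxx, hκ0]
    simp only [Pi.add_apply, Pi.smul_apply, smul_eq_mul]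
    ring
  set FF : (Fin n0 → ι) × (Fin q → ι) → ((Fin lam → ι) × ℕ) × ((Fin Q → Ω) × (Fin Q → Ω)) →
      Fin (k + 1) → ℤ := fun z x => low_T T x.1.2 x.2.1 x.2.2 + fl (xx z x.1.1) with hFF
  set Dom := (univ : Finset ((Fin n0 → ι) × (Fin q → ι))) ×ˢ WW with hDom
  -- the entropies on the reparametrized space
  set Xi := (Finset.range Q) ×ˢ (Fintype.piFinset (fun _ : Fin Q => S)) ×ˢ
          (Fintype.piFinset (fun _ : Fin Q => S')) ×ˢ (univ : Finset (Fin (n0 + lam + q) → ι)) with hXi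
  set XX : ℕ × (Fin Q → Ω) × (Fin Q → Ω) × (Fin (n0 + lam + q) → ι) → Fin (k + 1) → ℤ :=
    fun x => (∑ j : Fin Q, if (j : ℕ) < x.1 then T (x.2.1 j) else T (x.2.2.1 j)) +
          fl (π.mulVec (σ.P B t i (n0 + lam + q) x.2.2.2)) with hXX
  have hXe : ∀ x, XX (low_e n0 lam q Q x) = FF x.1 x.2 := by
    intro x
    rw [hXX, hFF]
    have := hP x.1 x.2.1.1
    show low_T T x.2.1.2 x.2.2.1 x.2.2.2 +
      fl (π.mulVec (σ.P B t i (n0 + lam + q) (Fin.append (Fin.append x.1.1 x.2.1.1) x.1.2))) = _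
    rw [this]
  have b1 := h5.2.2.2.2 _ _ _ Dom Xi (low_e n0 lam q Q)
    (fun x => (cl B q (XX x), cl B (q + lam) (XX x))) (low_bij n0 lam q Q S S')
  have b2 := h5.2.2.2.2 _ _ _ Dom Xi (low_e n0 lam q Q)
    (fun x => cl B (q + lam) (XX x)) (low_bij n0 lam q Q S S')
  simp only [hXe] at b1 b2
  have b3 : cent Xi (fun x => cl B q (XX x)) (fun x => cl B (q + lam) (XX x)) =
      ent Dom (fun x => (cl B q (FF x.1 x.2), cl B (q + lam) (FF x.1 x.2))) -
        ent Dom (fun x => cl B (q + lam) (FF x.1 x.2)) := by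
    unfold cent
    rw [← b1, ← b2]
  show _ ≤ cent Xi (fun x => cl B q (XX x)) (fun x => cl B (q + lam) (XX x))
  rw [b3]
  -- submodularity
  have s1 := h1.2.1 _ _ _ _ Dom (fun x => cl B q (FF x.1 x.2)) (fun x => x.1)
    (fun x => cl B (q + lam) (FF x.1 x.2))
  have s2 : ent Dom (fun x => (cl B q (FF x.1 x.2), x.1)) ≤
      ent Dom (fun x => (cl B q (FF x.1 x.2), x.1, cl B (q + lam) (FF x.1 x.2))) := by
    refine h1.1 _ _ _ _ _ _ ?_
    intro x _ z _ hxz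
    have a1 := congrArg Prod.fst hxz
    have a2 := congrArg (fun p => p.2.1) hxz
    exact Prod.ext a1 a2
  have s3 : ent Dom (fun x => (x.1, cl B (q + lam) (FF x.1 x.2))) ≤
      ent Dom (fun x => (cl B (q + lam) (FF x.1 x.2), x.1)) := by
    refine h1.1 _ _ _ _ _ _ ?_
    intro x _ z _ hxz
    have a1 := congrArg Prod.fst hxz
    have a2 := congrArg Prod.snd hxz
    exact Prod.ext a2 a1
  -- (a)
  have s4 : cent Dom (fun x => cl B (q + lam) (FF x.1 x.2)) (fun x => x.1) ≤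
      Real.log (((B ^ w + 2 * N1 + 3 + 1) ^ (k + 1) : ℕ) : ℝ) := by
    refine h2.1 _ _ _ Dom _ _ _ ?_
    intro z
    refine ⟨_, (low_box (k + 1) (fun j => ⌊((e j / (B : ℤ) ^ w : ℤ) : ℝ) * (B : ℝ) ^ w +
      κ0 z j / (B : ℝ) ^ (q + lam)⌋ - N1 - 2) (B ^ w + 2 * N1 + 3)).le, ?_⟩
    intro x hx hxz
    have hx' := (Finset.mem_product.1 hx).2
    have hx2 := (Finset.mem_product.1 hx').2
    have hu := Fintype.mem_piFinset.1 (Finset.mem_product.1 hx2).1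
    have hu' := Fintype.mem_piFinset.1 (Finset.mem_product.1 hx2).2
    subst hxz
    refine low_A k B w s (q + lam) Q N1 hB (by omega) hQ S S' T e e' he he' hee (κ0 x.1) x.2.1.2
      x.2.2.1 x.2.2.2 hu hu' (xx x.1 x.2.1.1) ?_
    intro j
    have a1 : xx x.1 x.2.1.1 j - κ0 x.1 j = (B : ℝ) ^ q * (π.mulVec (PJ x.2.1.1)) j := by
      rw [hxx]
      ring
    rw [a1, abs_mul, abs_of_nonneg (by positivity : (0 : ℝ) ≤ (B : ℝ) ^ q)]
    have a2 := hf.2.2.1 (k + 1) m π hπ (PJ x.2.1.1) ((R + B) * (B : ℝ) ^ lam)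
      (fun c => p2 (i + n0) lam x.2.1.1 c) j
    calc (B : ℝ) ^ q * |(π.mulVec (PJ x.2.1.1)) j| ≤
        (B : ℝ) ^ q * ((m : ℝ) * ((R + B) * (B : ℝ) ^ lam)) :=
          mul_le_mul_of_nonneg_left a2 (by positivity)
      _ = (m : ℝ) * (R + B) * (B : ℝ) ^ (q + lam) := by rw [pow_add]; ring
      _ ≤ N1 * (B : ℝ) ^ (q + lam) := mul_le_mul_of_nonneg_right hN1r (by positivity)
  -- (b), (c)
  obtain ⟨i0, hi0⟩ := hdiff
  have hrow : ∀ z : (Fin n0 → ι) × (Fin q → ι),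
      σ.GG B t k (i + n0) lam + (lam : ℝ) * Real.log B -
        (Real.log 2 + m * Real.log 2 + m * Real.log ((2 * m + 1 : ℕ) : ℝ)) -
        ((k + 1 : ℕ) : ℝ) * 12 ≤ ent WW (fun x => cl B q (FF z x)) := by
    intro z
    have hD := low_D h1 h5 h6 h10 k B hB (Fin lam → ι) (xx z) s q (q + lam) Q hsq (by omega) h2q hQ
      Ω S S' hS hS' T e e' he he'
    have hbq : (0 : ℝ) < ((B ^ q : ℕ) : ℝ) := by
      push_cast
      positivity
    set Mu : Fin (k + 1) → ℝ := fun j => (∑ y ∈ S, (T y j : ℝ)) / S.card with hMu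
    set Mu' : Fin (k + 1) → ℝ := fun j => (∑ y ∈ S', (T y j : ℝ)) / S'.card with hMu'
    have hy : 1 ≤ (B : ℝ) ^ (q - s) * |(fun j => (Mu j - Mu' j) / ((B ^ q : ℕ) : ℝ)) i0| := by
      obtain ⟨m1, m2⟩ := low_mean hS fun x hx => low_cl_cell hB0 (he x hx) i0
      obtain ⟨m3, m4⟩ := low_mean hS' fun x hx => low_cl_cell hB0 (he' x hx) i0
      have hbs : (0 : ℝ) < (B : ℝ) ^ s := by positivity
      have hdd : (B : ℝ) ^ s ≤ |Mu i0 - Mu' i0| := by
        rcases le_total (e i0 - e' i0) 0 with hneg | hpos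
        · rw [abs_of_nonpos hneg] at hi0
          have hi1 : (2 : ℝ) ≤ (e' i0 : ℝ) - e i0 := by exact_mod_cast (by omega : (2 : ℤ) ≤ e' i0 - e i0)
          have : (B : ℝ) ^ s ≤ Mu' i0 - Mu i0 := by
            have hh : Mu' i0 - Mu i0 ≥ ((e' i0 : ℝ) - e i0) * (B : ℝ) ^ s - (B : ℝ) ^ s := by
              have q1 : (e' i0 : ℝ) * (B : ℝ) ^ s ≤ Mu' i0 := m3
              have q2 : Mu i0 ≤ (e i0 : ℝ) * (B : ℝ) ^ s + (B : ℝ) ^ s := m2
              linarith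
            nlinarith
          rw [abs_sub_comm]
          exact this.trans (le_abs_self _)
        · rw [abs_of_nonneg hpos] at hi0
          have hi1 : (2 : ℝ) ≤ (e i0 : ℝ) - e' i0 := by exact_mod_cast hi0
          have : (B : ℝ) ^ s ≤ Mu i0 - Mu' i0 := by
            have hh : Mu i0 - Mu' i0 ≥ ((e i0 : ℝ) - e' i0) * (B : ℝ) ^ s - (B : ℝ) ^ s := by
              have q1 : (e i0 : ℝ) * (B : ℝ) ^ s ≤ Mu i0 := m1
              have q2 : Mu' i0 ≤ (e' i0 : ℝ) * (B : ℝ) ^ s + (B : ℝ) ^ s := m4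
              linarith
            nlinarith
          exact this.trans (le_abs_self _)
      show 1 ≤ (B : ℝ) ^ (q - s) * |(Mu i0 - Mu' i0) / ((B ^ q : ℕ) : ℝ)|
      rw [abs_div, abs_of_pos hbq, mul_div_assoc', le_div_iff₀ hbq, one_mul]
      push_cast
      calc (B : ℝ) ^ q = (B : ℝ) ^ (q - s) * (B : ℝ) ^ s := by
            rw [← pow_add]
            congr 1
            omega
        _ ≤ (B : ℝ) ^ (q - s) * |Mu i0 - Mu' i0| := mul_le_mul_of_nonneg_left hdd (by positivity)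
    have hC := low_C h1 h2 h5 hf m k B hB hkm (Fin lam → ι) PJ π hπ
      (fun j => (Mu j - Mu' j) / ((B ^ q : ℕ) : ℝ))
      (fun j => (Q * Mu' j + κ0 z j) / ((B ^ q : ℕ) : ℝ)) i0 (q - s) lam hy
      (σ.GG B t k (i + n0) lam) (fun Qy hQy => hsupG Qy (i + n0) lam hQy)
    rw [← hQ'] at hC
    have hfun : (fun (a : (Fin lam → ι) × ℕ) => fun j => ⌊(low_y S S' T Q a.2 j + xx z a.1 j) /
        ((B ^ q : ℕ) : ℝ)⌋) =
        (fun a => fun j => ⌊(a.2 : ℝ) * ((fun j => (Mu j - Mu' j) / ((B ^ q : ℕ) : ℝ)) j) +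
          ((fun j => (Q * Mu' j + κ0 z j) / ((B ^ q : ℕ) : ℝ)) j + (π.mulVec (PJ a.1)) j)⌋) := by
      funext a j
      congr 1
      rw [hxx, hMu, hMu']
      unfold low_y
      push_cast
      field_simp
      ring
    rw [hfun] at hD
    have hD' : _ ≤ ent WW (fun x => cl B q (FF z x)) := hD
    linarith
  have s5 : σ.GG B t k (i + n0) lam + (lam : ℝ) * Real.log B -
        (Real.log 2 + m * Real.log 2 + m * Real.log ((2 * m + 1 : ℕ) : ℝ)) -
        ((k + 1 : ℕ) : ℝ) * 12 ≤ cent Dom (fun x => cl B q (FF x.1 x.2)) (fun x => x.1) := by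
    have e0 := h5.2.2.2.1 ((Fin n0 → ι) × (Fin q → ι)) _ (Fin (k + 1) → ℤ) univ WW
      (fun z x => cl B q (FF z x)) Finset.univ_nonempty hWWne
    have e0' : cent Dom (fun x => cl B q (FF x.1 x.2)) (fun x => x.1) = _ := e0
    rw [e0']
    have hcp : (0 : ℝ) < ((univ : Finset ((Fin n0 → ι) × (Fin q → ι))).card : ℝ) := by
      exact_mod_cast Finset.card_pos.2 Finset.univ_nonempty
    rw [le_div_iff₀ hcp]
    have hs := Finset.sum_le_sum fun z (_ : z ∈ (univ : Finset ((Fin n0 → ι) × (Fin q → ι)))) => hrow z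
    rw [Finset.sum_const, nsmul_eq_mul] at hs
    linarith
  have hk1 : ((k + 1 : ℕ) : ℝ) ≤ m := by exact_mod_cast hkm
  have c1 : Real.log (((B ^ w + 2 * N1 + 3 + 1) ^ (k + 1) : ℕ) : ℝ) ≤
      m * Real.log ((B ^ w + 2 * N1 + 3 + 1 : ℕ) : ℝ) := by
    rw [Nat.cast_pow, Real.log_pow]
    exact mul_le_mul_of_nonneg_right hk1 (Real.log_natCast_nonneg _)
  have c2 : ((k + 1 : ℕ) : ℝ) * 12 ≤ 12 * m := by linarith
  unfold cent at s4 s5
  have s1' : ent Dom (fun x => (cl B q (FF x.1 x.2), x.1, cl B (q + lam) (FF x.1 x.2))) +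
      ent Dom (fun x => cl B (q + lam) (FF x.1 x.2)) ≤
      ent Dom (fun x => (cl B q (FF x.1 x.2), cl B (q + lam) (FF x.1 x.2))) +
      ent Dom (fun x => (x.1, cl B (q + lam) (FF x.1 x.2))) := s1
  linarith

end Pool.Agent.Helper70.DK
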